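import Pool.Agent.Q41.EG.Ell

/-! MP_9d0787_an: the best constant in the weighted Hardy-Littlewood inequality with weight `x`. -/

set_option autoImplicit false

open MeasureTheory Set

namespace Pool.Agent.Results.MP_9d0787_an.BestConstant

/-- `f` is admissible: twice differentiable on `(0, ∞)`, and `x f²` and `x f''²` are integrable
there. -/
def Admissible (f : ℝ → ℝ) : Prop :=
  (∀ x : ℝ, 0 < x → DifferentiableAt ℝ f x) ∧
  (∀ x : ℝ, 0 < x → DifferentiableAt ℝ (deriv f) x) ∧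
  IntegrableOn (fun x => x * f x ^ 2) (Ioi 0) ∧
  IntegrableOn (fun x => x * deriv (deriv f) x ^ 2) (Ioi 0)

/-- the complete elliptic integral of the first kind, with parameter `m = k²` -/
noncomputable def ellK (m : ℝ) : ℝ :=
  ∫ φ in (0:ℝ)..(Real.pi / 2), 1 / √(1 - m * Real.sin φ ^ 2)

/-- the complete elliptic integral of the second kind, with parameter `m = k²` -/
noncomputable def ellE (m : ℝ) : ℝ :=
  ∫ φ in (0:ℝ)..(Real.pi / 2), √(1 - m * Real.sin φ ^ 2)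

/-- the constants `c` that are admissible in the inequality -/
def Constants : Set ℝ :=
  {c : ℝ | ∀ f : ℝ → ℝ, Admissible f →
    IntegrableOn (fun x => x * deriv f x ^ 2) (Ioi 0) ∧
    (∫ x in Ioi (0:ℝ), x * deriv f x ^ 2) ^ 2 ≤
      c * (∫ x in Ioi (0:ℝ), x * f x ^ 2) * ∫ x in Ioi (0:ℝ), x * deriv (deriv f) x ^ 2}

theorem toAdm {f : ℝ → ℝ} (h : Admissible f) : Q41.EG.Adm f (deriv f) (deriv (deriv f)) where
  h1 x hx := (h.1 x hx).hasDerivAt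
  h2 x hx := (h.2.1 x hx).hasDerivAt
  m2 := (measurable_deriv _).aestronglyMeasurable
  iA := h.2.2.1
  iC := h.2.2.2

theorem g_deriv {m : ℝ} (h1 : 1 / 2 < m) (h2 : m < 1) :
    deriv (Q41.EG.g m 0) = Q41.EG.g m 1 ∧ deriv (deriv (Q41.EG.g m 0)) = Q41.EG.g m 2 := by
  have e1 : deriv (Q41.EG.g m 0) = Q41.EG.g m 1 := by
    ext x
    exact (Q41.EG.g_der h1 h2 0 x).deriv
  refine ⟨e1, ?_⟩
  rw [e1]
  ext x
  exact (Q41.EG.g_der h1 h2 1 x).deriv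

theorem g_admissible {m : ℝ} (h1 : 1 / 2 < m) (h2 : m < 1) : Admissible (Q41.EG.g m 0) := by
  obtain ⟨e1, e2⟩ := g_deriv h1 h2
  have h := Q41.EG.g_adm h1 h2
  refine ⟨fun x hx => (h.h1 x hx).differentiableAt, ?_, h.iA, ?_⟩
  · rw [e1]
    exact fun x hx => (h.h2 x hx).differentiableAt
  · rw [e2]
    exact h.iC

theorem R4 {m : ℝ} (h1 : 1 / 2 < m) : Q41.EG.Rr m ^ 4 = 1 / (2 * m - 1) ^ 2 := by
  have h := Q41.EG.Rr_sq h1
  have h3 : 2 * m - 1 ≠ 0 := by intro h0; rw [h0] at h; simp at h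
  rw [eq_div_iff (pow_ne_zero 2 h3)]
  have : Q41.EG.Rr m ^ 4 * (2 * m - 1) ^ 2 = (Q41.EG.Rr m ^ 2 * (2 * m - 1)) ^ 2 := by ring
  rw [this, h, one_pow]

theorem result : ∃ m : ℝ, (0 < m ∧ m < 1 ∧ 2 * ellE m = ellK m) ∧
    (∀ m' : ℝ, 0 < m' → m' < 1 → 2 * ellE m' = ellK m' → m' = m) ∧
    IsLeast Constants (1 / (2 * m - 1) ^ 2) ∧
    (∃ f : ℝ → ℝ, Admissible f ∧ 0 < (∫ x in Ioi (0:ℝ), x * f x ^ 2) *
        (∫ x in Ioi (0:ℝ), x * deriv (deriv f) x ^ 2) ∧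
      (∫ x in Ioi (0:ℝ), x * deriv f x ^ 2) ^ 2 =
        1 / (2 * m - 1) ^ 2 * (∫ x in Ioi (0:ℝ), x * f x ^ 2) *
          ∫ x in Ioi (0:ℝ), x * deriv (deriv f) x ^ 2) := by
  obtain ⟨m, h1, h2, h0⟩ := Q41.EG.exists_m
  have hm0 : 0 < m := by linarith
  have hF : ∀ {n : ℝ}, 0 < n → n < 1 → Q41.EG.Fm n = 2 * ellE n - ellK n := fun a b =>
    Q41.EG.Fm_eq a b
  have hg0 := Q41.EG.g00 h1 h2
  have hg2 : Q41.EG.g m 2 0 = 0 := by
    rw [Q41.EG.g20 h1 h2, h0]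
    ring
  obtain ⟨e1, e2⟩ := g_deriv h1 h2
  obtain ⟨hAC, hEq⟩ := Q41.EG.main_AC h1 h2 hg0 hg2
  have hga := g_admissible h1 h2
  refine ⟨m, ⟨hm0, h2, ?_⟩, ?_, ⟨?_, ?_⟩, Q41.EG.g m 0, hga, ?_, ?_⟩
  · have := hF hm0 h2
    linarith
  · intro m' h3 h4 h5
    have h6 : Q41.EG.Fm m' = 0 := by rw [hF h3 h4]; linarith
    rcases lt_trichotomy m' m with h | h | h
    · have := Q41.EG.Fm_anti h3 h h2
      linarith
    · exact h
    · have := Q41.EG.Fm_anti hm0 h h4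
      linarith
  · intro f hf
    refine ⟨(toAdm hf).iB, ?_⟩
    rw [← R4 h1]
    exact Q41.EG.main_ineq h1 h2 hg0 hg2 (toAdm hf)
  · intro c hc
    have h3 := (hc _ hga).2
    rw [e2, e1, hEq, ← R4 h1, mul_assoc, mul_assoc] at *
    exact le_of_mul_le_mul_right h3 hAC
  · rw [e2]
    exact hAC
  · rw [e2, e1, ← R4 h1]
    exact hEq

end Pool.Agent.Results.MP_9d0787_an.BestConstant
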